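import Pool.Agent.Q19.Fermat.Fin

set_option autoImplicit false

namespace Pool.Agent.Results.MP_762bfd_nt.FullQuotient

open Pool.Agent.Q19.Fermat PowerSeries

/-- The first item of Q1: the quotient `𝓕 / (D + ℤ[x] + P)` is isomorphic to a direct sum of
countably many copies of the additive group of the rational numbers. -/
theorem result :
    (groupD ⊔ groupZx ⊔ groupP ≤ groupF) ∧
    Nonempty ((↥groupF ⧸ (groupD ⊔ groupZx ⊔ groupP).addSubgroupOf groupF) ≃+ (ℕ →₀ ℚ)) := by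
  have key : ∀ G R : AddSubgroup ℤ⟦X⟧, G = groupF → R = groupD ⊔ groupZx ⊔ groupP →
      Nonempty ((↥G ⧸ R.addSubgroupOf G) ≃+ (ℕ →₀ ℚ)) →
      Nonempty ((↥groupF ⧸ (groupD ⊔ groupZx ⊔ groupP).addSubgroupOf groupF) ≃+ (ℕ →₀ ℚ)) := by
    rintro _ _ rfl rfl h
    exact h
  have h1 := rel_le good_top
  have hr : rel ⊤ = groupD ⊔ groupZx ⊔ groupP := by
    unfold rel
    rw [inf_top_eq, inf_top_eq]
  rw [hr, inf_top_eq] at h1
  exact ⟨h1, key _ _ (inf_top_eq groupF) hr (main good_top)⟩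

end Pool.Agent.Results.MP_762bfd_nt.FullQuotient
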