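import Pool.Agent.Q19.Fermat.Fin

set_option autoImplicit false

namespace Pool.Agent.Results.MP_762bfd_nt.RationalQuotient

open Pool.Agent.Q19.Fermat PowerSeries

/-- The answer to Q2: the group `𝔓_∅` of all integer power series with the Fermat property which
represent rational functions, modulo the series `x U'(x)` and the finite sums of series `U(x ^ M)`,
`M ≥ 2`, among them, and the polynomials, is isomorphic to a direct sum of countably many copies of
the additive group of the rational numbers. -/
theorem result :
    ((groupD ⊓ groupRat) ⊔ groupZx ⊔ (groupP ⊓ groupRat) ≤ groupF ⊓ groupRat) ∧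
    Nonempty ((↥(groupF ⊓ groupRat) ⧸
      ((groupD ⊓ groupRat) ⊔ groupZx ⊔ (groupP ⊓ groupRat)).addSubgroupOf
        (groupF ⊓ groupRat)) ≃+ (ℕ →₀ ℚ)) :=
  ⟨rel_le good_rat, main good_rat⟩

end Pool.Agent.Results.MP_762bfd_nt.RationalQuotient
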